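import Pool.Agent.H14.Gf1
set_option autoImplicit false

open Polynomial

theorem Pool.Agent.Results.MP_60133c_an.PositiveZeros.result (Q : ℝ[X]) (hd : 0 < Q.natDegree)
    (hQ : ∀ z : ℂ, aeval z Q = 0 → z.im = 0 ∧ 0 < z.re) (h0 : 0 < Q.eval 0) (r m : ℕ) (z : ℂ)
    (hz : aeval z (PowerSeries.coeff m
      (((Q.map (algebraMap ℝ (RatFunc ℝ)) : (RatFunc ℝ)[X]) : PowerSeries (RatFunc ℝ)) +
        PowerSeries.C RatFunc.X * PowerSeries.X ^ r)⁻¹).num = 0) : z.im = 0 ∧ 0 < z.re :=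
  Pool.Agent.H14.Gf.main Q hd hQ h0 r m z hz
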